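import Pool.Agent.NH37.MG.Cases
import Pool.Agent.NH46.F8.Eight
import Pool.Agent.NH46.F8.Final

set_option autoImplicit false

/-!
# The F-conjecture for classes of light marks, for all `n`

Let `H` be a set of heavy marks of `M̄_{0,n}`, and let the other marks be divided in `r` classes of
marks which are interchangeable for the divisor, such that `max (1, |H|) + r ≤ 8`.

* (Hassett spaces) Let the divisor be pulled back from Hassett's space
  `M̄_{0,(1,…,1,ε,…,ε)}` with the heavy marks `H`: its degree is zero on the F-curves with three
  parts which contain no mark of `H`. Theorem: if it is F-nef, it is nef. So the F-conjecture is true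
  for the divisors on the quotient of this space by `S_{m_1} × … × S_{m_r}`, `m_1, …, m_r` the sizes
  of the classes, for all `m_1, …, m_r`.
* (Monotone degrees) More generally, let the degree on the F-curves `A, {x}, {y}`, rest, with `x`
  and `y` in one class and `|A| < s`, be monotone in `A` (`MonoDeg`), where
  `n - |H| < (9 - |H| - r) (s + 1) + r`. Theorem: if the divisor is F-nef, it is nef.
  For example (`H` empty, `r = 1`) let `F(a)` be the degree of a symmetric divisor on the F-curves
  with parts of the sizes `a, 1, 1, n - 2 - a`. If `F(a) ≤ F(b)` for all `a < s`,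
  `2 a < b < n - 2 - a`, where `n ≤ 8 (s + 1)`, then the divisor is nef if it is F-nef.

Proof.  If two parts `B_i` and `B_k` of a partition without marks of `H`, with at most `s` marks,
contain marks `x`, `y` of one class, the degree on a curve in the stratum is at least the average of
the degrees for two partitions with a larger sum of squares of the numbers of marks in the parts. So,
if the degree is negative for a partition, take one with minimal degree and, among these, with the
largest sum of squares: no two parts contain marks of one class, among the parts without marks of `H`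
and with at most `s` marks (if `H` is empty, other than a largest part). By the inequality it has at
most eight parts. For the divisors on `M̄_{0,q}`, `q ≤ 8`, the F-conjecture is true (Larsen for
`q ≤ 7`, Fedorchuk and Mellit for `q = 8`; it is proved again in the files which are imported).

Curves.  An irreducible curve in `M̄_{0,n}` meets the interior of a unique stratum, and its class is
the sum of the classes of its projections to the factors `M̄_{0,q}` of the stratum; such a factor is
given by a partition of the marks in `q` parts.  The theorem is proved for all families `𝒞 q` of sets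
of classes of curves in `M̄_{0,q}` which meet the interior, provided that they are closed under the
push-forward by the forgetful maps, for example the sums of classes of irreducible curves which meet
the interior, over any field, or all classes with the numerical properties `IsCurve`.
-/

namespace Pool.Agent.Results.MP_23e236_ag.HeavyLightMarks

open Finset Pool.Agent.NH37.FC Pool.Agent.NH37.SL Pool.Agent.NH37.MF Pool.Agent.NH37.MG

/-- `𝒞 q` is for all `q` a set of classes of curves in `M̄_{0,q}` which meet the interior, closed
under the push-forward by the forgetful maps `M̄_{0,q} → M̄_{0,s}`, `s ≥ 4`. -/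
def IsFamily (𝒞 : (q : ℕ) → (Finset (Fin q) → ℝ) → (Fin q → ℝ) → Prop) : Prop :=
  (∀ q m ψ, 𝒞 q m ψ → IsCurve m ψ) ∧
    ∀ (q s : ℕ) (p : Fin s → Fin q), 4 ≤ s → Function.Injective p →
      ∀ m ψ, 𝒞 q m ψ → 𝒞 s (pushM p m) (pushPsi p m ψ)

/-- The family of all classes with the numerical properties of a curve. -/
theorem isFamily_isCurve : IsFamily fun _ m ψ => IsCurve m ψ :=
  ⟨fun _ _ _ h => h, fun _ _ _ _ hp _ _ h => isCurve_push hp h⟩

/-- The divisors with degree zero on the F-curves with three parts which contain no mark of `H`
satisfy the condition `MonoDeg` for all `s`. -/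
theorem monoDeg_light {n r : ℕ} {c : Finset (Fin n) → ℝ} (hc : IsDivisor c) (hF : FNef c)
    {H : Finset (Fin n)} (hl : IsLight Hᶜ c) (κ : Fin n → Fin r) (s : ℕ) : MonoDeg c H κ s := by
  intro A V x y hx hy hxy _ hA _ hxA hyA hV _ _
  have h0 : fdeg c A {x} {y} = 0 := by
    rcases A.eq_empty_or_nonempty with e | hn
    · rw [e, fdeg_empty hc]
    · have := hl A {x} {y} (fun z hz => mem_compl.2 (disjoint_left.1 hA hz)) (by simpa using hx)
        (by simpa using hy) hn (singleton_nonempty x) (singleton_nonempty y)
        (disjoint_singleton_right.2 hxA) (disjoint_singleton_right.2 hyA)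
        (disjoint_singleton.2 hxy)
      unfold fdeg
      linarith
  rw [h0]
  rw [disjoint_union_right, disjoint_insert_right, disjoint_singleton_right] at hV
  exact fdeg_nonneg hc hF (disjoint_singleton_right.2 (by simp [hxA, hV.2.1]))
    (disjoint_singleton_right.2 (by simp [hyA, hV.2.2])) (disjoint_singleton.2 hxy)

/-- Monotone degrees for the sets of less than `s` marks. -/
theorem mono {n r s : ℕ} {H : Finset (Fin n)} {κ : Fin n → Fin r} {c : Finset (Fin n) → ℝ}
    (hc : IsDivisor c) (hF : FNef c)
    (hκ : ∀ x ∉ H, ∀ y ∉ H, κ x = κ y → Exch c {x} {y}) (hM : MonoDeg c H κ s)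
    {𝒞 : (q : ℕ) → (Finset (Fin q) → ℝ) → (Fin q → ℝ) → Prop} (h𝒞 : IsFamily 𝒞)
    (h1 : max 1 H.card + r ≤ 8) (h2 : Hᶜ.card < (9 - H.card - r) * (s + 1) + r) : Nef 𝒞 c := by
  have hN : Base 8 := fun q h4 h8 b hb hbF m ψ hm =>
    (Pool.Agent.NH46.F8.final Pool.Agent.NH46.F8.eight).2 q q h4 h8 b hb hbF (fun i => {i})
      ⟨fun i => singleton_nonempty i, fun i j hij => disjoint_singleton.2 hij, by ext; simp⟩ m ψ hm
  rw [criterionN (by norm_num) hN hc hF h𝒞.1 h𝒞.2 hκ hM]
  intro q B hq hB hR m ψ hm
  exact absurd hR (case_monoN hB hq h1 h2)

/-- **The F-conjecture for classes of light marks.**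

Let `c` be an F-nef divisor on `M̄_{0,n}` for which the marks of each class of `κ` which are not in
`H` are interchangeable, `r` the number of classes, `max (1, |H|) + r ≤ 8`. The divisor `c` is nef

* if it is pulled back from Hassett's space with the heavy marks `H` (`IsLight`: the degree is zero
  on the F-curves with three parts which contain no mark of `H`), for all `n`;
* if the degrees on the F-curves `A, {x}, {y}`, rest, `x` and `y` of one class, `|A| < s`, are
  monotone in `A` (`MonoDeg`), and `n - |H| < (9 - |H| - r) * (s + 1) + r`.

Here nef means nonnegative degree on all curves in all strata with classes in the sets `𝒞 q`. -/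
theorem result {n r : ℕ} {H : Finset (Fin n)} {κ : Fin n → Fin r} {c : Finset (Fin n) → ℝ}
    (hc : IsDivisor c) (hF : FNef c)
    (hκ : ∀ x ∉ H, ∀ y ∉ H, κ x = κ y → Exch c {x} {y}) (hr : max 1 H.card + r ≤ 8)
    (h : IsLight Hᶜ c ∨ ∃ s : ℕ, MonoDeg c H κ s ∧ Hᶜ.card < (9 - H.card - r) * (s + 1) + r)
    {𝒞 : (q : ℕ) → (Finset (Fin q) → ℝ) → (Fin q → ℝ) → Prop} (h𝒞 : IsFamily 𝒞) :
    Nef 𝒞 c := by
  rcases h with h | ⟨s, h1, h2⟩
  · refine mono (s := n) hc hF hκ (monoDeg_light hc hF h κ n) h𝒞 hr ?_
    have h1 : H.card + r ≤ 8 := (Nat.add_le_add_right (le_max_right _ _) r).trans hr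
    have h2 : Hᶜ.card ≤ n := by simpa using card_le_univ Hᶜ
    have h3 : 1 ≤ 9 - H.card - r := by omega
    have h4 : 1 * (n + 1) ≤ (9 - H.card - r) * (n + 1) := Nat.mul_le_mul_right _ h3
    omega
  · exact mono hc hF hκ h1 h𝒞 hr h2

end Pool.Agent.Results.MP_23e236_ag.HeavyLightMarks
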