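import Pool.Agent.NH37.MG.Cases
import Pool.Agent.NH46.F8.Eight
import Pool.Agent.NH46.F8.Final

set_option autoImplicit false

/-!
# The F-conjecture for divisors with interchangeable marks

Two marks `x`, `y` of `M̄_{0,n}` are interchangeable for a divisor if it is invariant under the
transposition `(x y)`. Let `H` be a set of marks, and let the other marks be divided in `r` classes
of interchangeable marks. A factor `M̄_{0,q}` of a stratum of `M̄_{0,n}` gives a partition of the marks
in `q` parts. The partition is reduced if among the parts without marks of `H`

* (a) there are no two with the same numbers of marks of each class,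
* (b) there is none with as many marks of each class as two others have together.

Theorem.  An F-nef divisor is nef if its degree is nonnegative on the curves in the reduced strata
with at least nine parts.

So there is nothing to check, and the F-conjecture holds without any hypothesis,

* (`r = 1`) for the divisors on `M̄_{0,n}` which are invariant under the permutations of `m = n - k`
  marks, if `m ≤ 80, 63, 48, 35, 23, 13, 6, 2` for `k = 0, …, 7`: a set of `9 - k` positive integers,
  none of them the sum of two others, has at least the sum `81, 64, 49, 36, 24, 14, 7, 3`.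
  With the flag map and the theorem of Gibney, Keel and Morrison: the F-conjecture is true for
  `M̄_{g,k}` if `g ≤ 80, 63, 48, 35, 23, 13, 6, 2` for `k = 0, …, 7`.
* for the divisors on `M̄_{0,9}` which are invariant under a transposition, on `M̄_{0,10}` under two
  disjoint transpositions, on `M̄_{0,11}` under four, on `M̄_{0,12}` under six.

Proof.  If the parts `B_i` and `B_k` have the same numbers of marks of each class the degree on a
curve in the stratum is at least the average of the degrees on the images of the curve in the two
strata for which `B_i` is moved to `B_k`, or `B_k` to `B_i` (the part which becomes empty is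
forgotten). If `B_k` is the union of `X'` and `Y'` with as many marks of each class as `B_i` and
`B_j`, the degree is at least the average of the degrees for the two partitions for which `B_i` and
`B_j` are moved to `B_k`, or `X'` to `B_i` and `Y'` to `B_j`. In both cases the difference is a sum of
nonnegative multiples of degrees on F-curves and of numbers `m(S)` of the curve, and the average of
the sums of the squares of the numbers of marks in the parts is larger. So, if the degree is negative
for a partition, take a partition with minimal degree and, among these, with the largest sum of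
squares: it is reduced. It has at least nine parts because the F-conjecture is true for `n ≤ 8`
(Larsen for `n ≤ 7`, Fedorchuk and Mellit for `n = 8`; it is proved again in the files which are
imported).

Curves.  An irreducible curve in `M̄_{0,n}` meets the interior of a unique stratum, and its class is
the sum of the classes of its projections to the factors `M̄_{0,q}` of the stratum; such a factor is
given by a partition of the marks in `q` parts.  The theorem is proved for all families `𝒞 q` of sets
of classes of curves in `M̄_{0,q}` which meet the interior, provided that they are closed under the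
push-forward by the forgetful maps, for example the sums of classes of irreducible curves which meet
the interior, over any field, or all classes with the numerical properties `IsCurve`.
-/

namespace Pool.Agent.Results.MP_23e236_ag.InterchangeableMarks

open Finset Pool.Agent.NH37.FC Pool.Agent.NH37.SL Pool.Agent.NH37.MF Pool.Agent.NH37.MG

/-- `𝒞 q` is for all `q` a set of classes of curves in `M̄_{0,q}` which meet the interior, closed
under the push-forward by the forgetful maps `M̄_{0,q} → M̄_{0,s}`, `s ≥ 4`. -/
def IsFamily (𝒞 : (q : ℕ) → (Finset (Fin q) → ℝ) → (Fin q → ℝ) → Prop) : Prop :=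
  (∀ q m ψ, 𝒞 q m ψ → IsCurve m ψ) ∧
    ∀ (q s : ℕ) (p : Fin s → Fin q), 4 ≤ s → Function.Injective p →
      ∀ m ψ, 𝒞 q m ψ → 𝒞 s (pushM p m) (pushPsi p m ψ)

/-- The family of all classes with the numerical properties of a curve. -/
theorem isFamily_isCurve : IsFamily fun _ m ψ => IsCurve m ψ :=
  ⟨fun _ _ _ h => h, fun _ _ _ _ hp _ _ h => isCurve_push hp h⟩

/-- **The F-conjecture for divisors with interchangeable marks.**

Let `c` be a divisor on `M̄_{0,n}` for which the marks of each class of `κ` which are not in `H` are
interchangeable. Suppose that `c` is F-nef, and that `c` has nonnegative degree on the curves in the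
reduced strata with at least nine parts (`Reduced κ H 0`: the conditions (a) and (b) above). Then `c`
is nef. There is nothing to suppose in the following cases, which have no reduced partition in nine
parts:
* there is only one class, and `Hᶜ` has at most `80, 63, 48, 35, 23, 13, 6, 2, 0` marks for
  `|H| = 0, …, 8`;
* `n ≤ 8 + t`, and there are `p ≥ max (1, 2 (t - 1))` disjoint pairs of interchangeable marks.

Here nef means nonnegative degree on all curves in all strata with classes in the sets `𝒞 q`. -/
theorem result {n r : ℕ} {H : Finset (Fin n)} {κ : Fin n → Fin r} {c : Finset (Fin n) → ℝ}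
    (hc : IsDivisor c) (hF : FNef c)
    (hκ : ∀ x ∉ H, ∀ y ∉ H, κ x = κ y → Exch c {x} {y})
    {𝒞 : (q : ℕ) → (Finset (Fin q) → ℝ) → (Fin q → ℝ) → Prop} (h𝒞 : IsFamily 𝒞)
    (h : (∀ (q : ℕ) (B : Fin q → Finset (Fin n)), 9 ≤ q → IsPartition B → Reduced κ H 0 B →
        ∀ m ψ, 𝒞 q m ψ → 0 ≤ degree c B m ψ) ∨
      (r = 1 ∧ H.card ≤ 8 ∧ Hᶜ.card ≤ bound8 H.card) ∨
      (∃ t p : ℕ, n ≤ 8 + t ∧ 1 ≤ p ∧ 2 * t ≤ p + 2 ∧ ∃ x y : Fin p → Fin n,
        Function.Injective x ∧ Function.Injective y ∧ (∀ i j, x i ≠ y j) ∧ (∀ i, x i ∉ H) ∧
          (∀ i, y i ∉ H) ∧ ∀ i, κ (x i) = κ (y i))) :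
    Nef 𝒞 c := by
  have hM : MonoDeg c H κ 0 := fun _ _ _ _ _ _ _ _ _ h => absurd h (Nat.not_lt_zero _)
  have hN : Base 8 := fun q h4 h8 b hb hbF m ψ hm =>
    (Pool.Agent.NH46.F8.final Pool.Agent.NH46.F8.eight).2 q q h4 h8 b hb hbF (fun i => {i})
      ⟨fun i => singleton_nonempty i, fun i j hij => disjoint_singleton.2 hij, by ext; simp⟩ m ψ hm
  rw [criterionN (by norm_num) hN hc hF h𝒞.1 h𝒞.2 hκ hM]
  intro q B hq hB hR m ψ hm
  rcases h with h | ⟨rfl, h1, h2⟩ | ⟨t, p, h1, h2, h3, x, y, h4, h5, h6, h7, h8, h9⟩
  · exact h q B hq hB hR m ψ hm
  · exact absurd hR (case_table8 hB hq h1 h2)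
  · exact absurd hR (case_pairsN hB hq h1 h2 h3 h4 h5 h6 h7 h8 h9)

end Pool.Agent.Results.MP_23e236_ag.InterchangeableMarks
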