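import Pool.Agent.NH37.FC.AllGenera

set_option autoImplicit false

/-!
# The F-conjecture for `M̄_g`, for infinitely many `g`, implies the F-conjecture for all `M̄_{g,n}`

Gibney, Keel and Morrison proved that the F-conjecture for `M̄_{g,n}` follows from the F-conjecture
for `M̄_{0,g+n}`, and only for divisors which are invariant under the permutations of `g` of the
marks; the conjecture for `M̄_g` is the conjecture for the `S_g`-invariant divisors on `M̄_{0,g}`. Here
the converse is proved: the `S_g`-invariant divisors are as complicated as all divisors.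

Theorem.  Let `q ≥ 4`, `N = (q - 1) 2 ^ q + 1`, and let `g = N` or `g ≥ q N ^ 2`.  For every divisor
`D` on `M̄_{0,q}` there is a divisor `D'` on `M̄_g` such that

* the pullback of `D'` to `M̄_{0,g}` by the flag map, restricted to the factor `M̄_{0,q}` of the
  strata whose `i`-th block consists of `w_i` marks, is `D`, for suitable numbers `w_i`;
* `D'` is F-nef if and only if `D` is F-nef;
* the pullback of `D'` to `M̄_{0,g}` is nef if and only if `D` is nef (so, by the theorem of Gibney,
  Keel and Morrison, `D'` is nef if and only if `D` is nef).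

So the F-conjecture for one such `M̄_g` implies the F-conjecture for `M̄_{0,q}`; if the F-conjecture
holds for `M̄_g` for infinitely many `g`, then it holds for all `M̄_{g,n}`; and if it is false for some
`M̄_{0,q}` then it is false for `M̄_g` for all `g ≥ q N ^ 2`.

The notion of nefness is with respect to an arbitrary set of classes of curves which meet the
interior of `M̄_{0,r}`, in particular the set of all of them, over any field.  (An irreducible curve in
`M̄_{0,n}` meets the interior of a unique stratum, and its class is the sum of the classes of its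
projections to the factors `M̄_{0,r}` of the stratum; such a factor is given by a partition of the
marks in `r` blocks.)

Proof.  The `w_i` are chosen such that `g` has only one representation as a combination of the `w_i`
with coefficients in the natural numbers, for example `w_i = 2 ^ q - 2 ^ i` for `g = N`.  Call `t`
representable if it is such a combination.  Let the level of `0 < t < g` be `0` if `t` and `g - t`
are representable, `t` if only `t` is, `g - t` if only `g - t` is, and the maximum of both if neither
is.  If `g = v_1 + … + v_r` and a partial sum `v(S)`, `2 ≤ |S| ≤ r - 2`, has positive level, then one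
of the `v_i` is not representable, and has a larger level than `v(S)`.  So a function `b` which grows
like `Λ ^ (level)` and has arbitrary values at the subset sums of the `w_i` has nonnegative degree on
all curves for which not all `v_i` are representable, and if all are, then the `v_i` come from a
partition of the `q` marks.
-/

namespace Pool.Agent.Results.MP_23e236_ag.MgSuffices

open Finset Pool.Agent.NH37.FC

/-- **The F-conjecture for `M̄_g` for infinitely many `g` implies the F-conjecture for `M̄_{0,n}` for
all `n`.**

1. Let `q ≥ 4` and `g = genus q = (q - 1) 2 ^ q + 1` or `g ≥ q (genus q) ^ 2`. There are positive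
   integers `w i` with the sum `g`, such that for every divisor `c` on `M̄_{0,q}` there is a divisor
   `a λ - b₀ δ₀ - ∑ b i • δ_i` on `M̄_g` such that its pullback `flag g b` to `M̄_{0,g}` restricts to
   `c` on the factor `M̄_{0,q}` of the strata given by the partitions of the `g` marks into `q`
   blocks of the sizes `w i`, which is F-nef if and only if `c` is F-nef, and whose pullback is nef
   if and only if `c` is nef, where nef means nonnegative degree on all curves, in all strata, with
   classes in arbitrary given sets `𝒞 r` of classes of curves in `M̄_{0,r}` that meet the interior.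
2. For all `𝒞` and every infinite set `G` of genera, the F-nef divisors on `M̄_g` have nef pullbacks
   for all `g ∈ G`, `g ≥ 3`, if and only if the F-nef divisors on `M̄_{0,n}` are nef for all `n`. -/
theorem result :
    (∀ q g : ℕ, 4 ≤ q → (g = genus q ∨ q * genus q ^ 2 ≤ g) →
      ∃ w : Fin q → ℕ, (∀ i, 0 < w i) ∧ ∑ i, w i = g ∧
        ∀ c : Finset (Fin q) → ℝ, IsDivisor c →
          ∃ (a b₀ : ℝ) (b : ℕ → ℝ), IsDivisorG g b ∧
            (∀ W : Fin q → Finset (Fin g), IsPartition W → (∀ i, (W i).card = w i) →
              ∀ (r : ℕ) (T : Fin r → Finset (Fin q)), 3 ≤ r → IsPartition T →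
                ∀ (m : Finset (Fin r) → ℝ) (ψ : Fin r → ℝ), IsCurve m ψ →
                  degree (flag g b) (fun i => (T i).biUnion W) m ψ = degree c T m ψ) ∧
            (FNef c ↔ FNefG g a b₀ b) ∧
            ∀ 𝒞 : (r : ℕ) → (Finset (Fin r) → ℝ) → (Fin r → ℝ) → Prop,
              (∀ r m ψ, 𝒞 r m ψ → IsCurve m ψ) → (Nef 𝒞 c ↔ Nef 𝒞 (flag g b))) ∧
    ∀ 𝒞 : (r : ℕ) → (Finset (Fin r) → ℝ) → (Fin r → ℝ) → Prop,
      (∀ r m ψ, 𝒞 r m ψ → IsCurve m ψ) → ∀ G : Set ℕ, G.Infinite →
        ((∀ g ∈ G, 3 ≤ g → ∀ (a b₀ : ℝ) (b : ℕ → ℝ), IsDivisorG g b → FNefG g a b₀ b →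
            Nef 𝒞 (flag g b)) ↔
          ∀ (n : ℕ) (c : Finset (Fin n) → ℝ), IsDivisor c → FNef c → Nef 𝒞 c) := by
  have hU : ∀ q g : ℕ, 4 ≤ q → (g = genus q ∨ q * genus q ^ 2 ≤ g) →
      ∃ w : Fin q → ℕ, IsUnique w g := by
    rintro q g hq (rfl | hg)
    · exact ⟨wt q, wt_pos, sum_wt (by omega), fun m h => wt_unique (by omega) m h⟩
    · exact exists_unique_large (by omega) hg
  refine ⟨fun q g hq hg => ?_, fun 𝒞 h𝒞 G hG => ⟨fun h n c hc hF => ?_,
    fun h g _ _ a b₀ b hb hF => h g _ (flag_isDivisor hb) (flag_fnef hF)⟩⟩
  · obtain ⟨w, hw⟩ := hU q g hq hg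
    refine ⟨w, hw.1, hw.2.1, fun c hc => ?_⟩
    obtain ⟨a, b₀, b, h1, h2, h3, h4⟩ := universal hw c hc
    exact ⟨a, b₀, b, h1, h4, h3, h2⟩
  · by_cases hn : 4 ≤ n
    · obtain ⟨g, hgG, hg⟩ := hG.exists_gt (n * genus n ^ 2 + 3)
      obtain ⟨w, hw⟩ := hU n g hn (Or.inr (by omega))
      obtain ⟨a, b₀, b, h1, h2, h3, h4⟩ := universal hw c hc
      exact (h2 𝒞 h𝒞).2 (h g hgG (by omega) a b₀ b h1 (h3.1 hF))
    · intro r B hr hB
      exfalso
      have h1 := sum_card hB
      have h2 := card_le_sum (fun i => (B i).card) (fun i => card_pos.2 (hB.1 i))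
      omega

end Pool.Agent.Results.MP_23e236_ag.MgSuffices
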