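import Pool.Agent.NH37.AF.Deg

set_option autoImplicit false

/-!
# An approximate F-conjecture with a universal constant

The log canonical divisor `K + Δ` of `M̄_{0,n}` is ample and has degree one on all the F-curves.  So
the F-conjecture holds for its multiples, whose degrees on the F-curves are all the same.

Theorem.  Let the degrees of `D` on the F-curves of `M̄_{0,n}` lie in the interval `[a, b]`.  Then,
with `e = a - 675 (b - a)` and `e' = b + 675 (b - a)`, the divisors `D - e (K + Δ)` and
`e' (K + Δ) - D` are linearly equivalent to effective sums of boundary divisors, and nef.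

The constant does not depend on `n`.  So, for all `n`,

* a divisor whose degrees on the F-curves are nonnegative and at most `b` becomes nef after adding
  `675 b (K + Δ)`, and this sum is linearly equivalent to an effective sum of boundary divisors;
* a divisor with positive degrees on the F-curves, all strictly within a factor `1 + 1 / 675` of
  each other, is ample;
* (by duality) the class of every curve is the difference of a combination with nonnegative
  coefficients of F-curves and another one, the degree of which on `K + Δ` is at most `675` times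
  the degree of `K + Δ` on the curve.  The F-conjecture says that `675` can be replaced by `0`.

Proof.  On a factor of a stratum with the set `V` of marks `D` is a symmetric function `c` on the
subsets of `V`, and after adding a constant the degrees on the F-curves, which are third order
differences of `c`, are at most `δ = (b - a) / 2`.  So `S ↦ c (S ∪ {i}) - c S - c {i}` is additive
on disjoint sets up to the error `δ`, and by the theorem of Kalton and Roberts (1983) it is within
the distance `150 δ` of an additive function.  The sum of these estimates over the points of `S`, in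
an order and in the opposite order, shows that `c` differs from a linear function and the cut
function of a weighted graph by at most `150 δ (|S| - 1)`; by the symmetry the linear function is
almost zero. The cut functions are the linear equivalences, and the coefficient of `δ_S` in `K + Δ`
is at least a third of `min (|S|, |V| - |S|) - 1`.
-/

namespace Pool.Agent.Results.MP_23e236_ag.UniversalConstant

open Finset Pool.Agent.NH37.FC

variable {n : ℕ}

/-- `A, B, C, D` is a partition of the marks into four nonempty sets. It is the type of an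
F-curve. -/
def IsFCurve (A B C D : Finset (Fin n)) : Prop :=
  A.Nonempty ∧ B.Nonempty ∧ C.Nonempty ∧ D.Nonempty ∧ Disjoint A B ∧ Disjoint A C ∧ Disjoint A D ∧
    Disjoint B C ∧ Disjoint B D ∧ Disjoint C D ∧ A ∪ B ∪ C ∪ D = univ

/-- The degree of the divisor `c` on the F-curve of type `A, B, C, D`. -/
def fdegree (c : Finset (Fin n) → ℝ) (A B C D : Finset (Fin n)) : ℝ :=
  c (A ∪ B) + c (A ∪ C) + c (A ∪ D) - c A - c B - c C - c D

/-- Linear equivalence: the difference is a combination, with coefficients `G i j = G j i`, of the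
relations `∑ δ_S = ψ_i + ψ_j`, the sum over the `S` which contain `i` but not `j`. These generate
all the relations between the `δ_S` and the `ψ_i`. -/
def LinEquiv (c u : Finset (Fin n) → ℝ) : Prop :=
  ∃ G : Fin n → Fin n → ℝ, (∀ i j, G i j = G j i) ∧ ∀ S, u S = c S + ∑ i ∈ S, ∑ j ∈ Sᶜ, G i j

/-- The log canonical divisor `K + Δ`: the coefficient of `δ_S` is `s (n - s) / (n - 1) - 1`, where
`s = |S|`. -/
noncomputable def logCanonical (S : Finset (Fin n)) : ℝ :=
  if S = ∅ ∨ S = univ then 0 else (S.card : ℝ) * ((n : ℝ) - S.card) / ((n : ℝ) - 1) - 1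

theorem logCanonical_eq : (logCanonical : Finset (Fin n) → ℝ) = Pool.Agent.NH37.AF.logK := by
  ext S
  unfold logCanonical Pool.Agent.NH37.AF.logK
  rw [Fintype.card_fin]

theorem logCanonical_divisor : IsDivisor (logCanonical : Finset (Fin n) → ℝ) := by
  constructor
  · simp [logCanonical]
  · intro S
    have h : (Sᶜ = ∅ ∨ Sᶜ = univ) ↔ (S = ∅ ∨ S = univ) := by
      rw [compl_eq_empty_iff, compl_eq_univ_iff, or_comm]
    unfold logCanonical
    by_cases hS : S = ∅ ∨ S = univ
    · rw [if_pos hS, if_pos (h.2 hS)]
    · rw [if_neg hS, if_neg (fun h' => hS (h.1 h')), card_compl, Fintype.card_fin,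
        Nat.cast_sub (by
          have := card_le_univ S
          rwa [Fintype.card_fin] at this)]
      congr 2
      ring

theorem logCanonical_fdegree {A B C D : Finset (Fin n)} (h : IsFCurve A B C D) :
    fdegree logCanonical A B C D = 1 := by
  obtain ⟨hA, hB, hC, hD, h1, h2, h3, h4, h5, h6, h7⟩ := h
  have hne : ∀ X Y : Finset (Fin n), X.Nonempty → Y.Nonempty → Disjoint X Y →
      logCanonical X = (X.card : ℝ) * ((n : ℝ) - X.card) / ((n : ℝ) - 1) - 1 := by
    intro X Y hX hY hXY
    unfold logCanonical
    rw [if_neg]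
    rintro (h | h)
    · exact nonempty_iff_ne_empty.1 hX h
    · subst h
      obtain ⟨y, hy⟩ := hY
      exact disjoint_left.1 hXY (mem_univ y) hy
  have hn : A.card + B.card + C.card + D.card = n := by
    rw [← card_union_of_disjoint h1, ← card_union_of_disjoint (disjoint_union_left.2 ⟨h2, h4⟩),
      ← card_union_of_disjoint (disjoint_union_left.2 ⟨disjoint_union_left.2 ⟨h3, h5⟩, h6⟩), h7,
      card_univ, Fintype.card_fin]
  have hn' : (n : ℝ) = A.card + B.card + C.card + D.card := by exact_mod_cast hn.symm
  have a1 : (1 : ℝ) ≤ A.card := by exact_mod_cast card_pos.2 hA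
  have a2 : (1 : ℝ) ≤ B.card := by exact_mod_cast card_pos.2 hB
  have a3 : (1 : ℝ) ≤ C.card := by exact_mod_cast card_pos.2 hC
  have a4 : (1 : ℝ) ≤ D.card := by exact_mod_cast card_pos.2 hD
  have hn1 : (n : ℝ) - 1 ≠ 0 := by rw [hn']; linarith
  unfold fdegree
  rw [hne A B hA hB h1, hne B A hB hA h1.symm, hne C A hC hA h2.symm, hne D A hD hA h3.symm,
    hne (A ∪ B) C (hA.mono subset_union_left) hC (disjoint_union_left.2 ⟨h2, h4⟩),
    hne (A ∪ C) B (hA.mono subset_union_left) hB (disjoint_union_left.2 ⟨h1, h4.symm⟩),
    hne (A ∪ D) B (hA.mono subset_union_left) hB (disjoint_union_left.2 ⟨h1, h5.symm⟩),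
    card_union_of_disjoint h1, card_union_of_disjoint h2, card_union_of_disjoint h3]
  push_cast
  field_simp
  rw [hn']
  ring

theorem bounds_T {c : Finset (Fin n) → ℝ} (hc : IsDivisor c) {a b : ℝ}
    (h : ∀ A B C D : Finset (Fin n), IsFCurve A B C D →
      a ≤ fdegree c A B C D ∧ fdegree c A B C D ≤ b)
    (A B C : Finset (Fin n)) (hA : A.Nonempty) (hB : B.Nonempty) (hC : C.Nonempty)
    (h1 : Disjoint A B) (h2 : Disjoint A C) (h3 : Disjoint B C) (h4 : A ∪ B ∪ C ≠ univ) :
    a ≤ Pool.Agent.NH37.AF.T c A B C ∧ Pool.Agent.NH37.AF.T c A B C ≤ b := by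
  have hD : (A ∪ B ∪ C)ᶜ.Nonempty := by
    rw [nonempty_iff_ne_empty, Ne, compl_eq_empty_iff]; exact h4
  have hd : Disjoint (A ∪ B ∪ C) (A ∪ B ∪ C)ᶜ := disjoint_compl_right
  have h5 := h A B C (A ∪ B ∪ C)ᶜ ⟨hA, hB, hC, hD, h1, h2,
    hd.mono_left (subset_union_left.trans subset_union_left), h3,
    hd.mono_left (subset_union_right.trans subset_union_left),
    hd.mono_left subset_union_right, union_compl _⟩
  have e1 : A ∪ (A ∪ B ∪ C)ᶜ = (B ∪ C)ᶜ := by
    ext x
    have d1 : x ∈ A → x ∉ B := fun h => disjoint_left.1 h1 h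
    have d2 : x ∈ A → x ∉ C := fun h => disjoint_left.1 h2 h
    simp only [mem_union, mem_compl]
    tauto
  unfold fdegree at h5
  rw [e1, hc.2, hc.2] at h5
  unfold Pool.Agent.NH37.AF.T
  constructor <;> linarith [h5.1, h5.2]

/-- Let `D` be a divisor on `M̄_{0,n}` with real coefficients, and let its degrees on all the
F-curves lie in `[a, b]`. Put `e = a - 675 (b - a)` and `e' = b + 675 (b - a)`.

1. `D` is linearly equivalent to a sum of boundary divisors in which the coefficient of every `δ_S`
   is at least `e` times and at most `e'` times the coefficient of `K + Δ`. So `D - e (K + Δ)` and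
   `e' (K + Δ) - D` are linearly equivalent to effective sums of boundary divisors.
2. On every curve, in every stratum, the degree of `D` is at least `e` times and at most `e'` times
   the degree of `K + Δ`. So `D - e (K + Δ)` and `e' (K + Δ) - D` are nef.
3. The divisor `K + Δ` has degree one on the F-curves, and it has positive degree on all the nonzero
   classes of curves in the factors of the strata. -/
theorem result (n : ℕ) (hn : 4 ≤ n) (c : Finset (Fin n) → ℝ) (hc : IsDivisor c) (a b : ℝ)
    (h : ∀ A B C D : Finset (Fin n), IsFCurve A B C D →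
      a ≤ fdegree c A B C D ∧ fdegree c A B C D ≤ b) :
    (∃ u : Finset (Fin n) → ℝ, IsDivisor u ∧ LinEquiv c u ∧ (∀ i, u {i} = 0) ∧
      ∀ S : Finset (Fin n), (a - 675 * (b - a)) * logCanonical S ≤ u S ∧
        u S ≤ (b + 675 * (b - a)) * logCanonical S) ∧
    (∀ (r : ℕ) (B : Fin r → Finset (Fin n)) (m : Finset (Fin r) → ℝ) (ψ : Fin r → ℝ), 4 ≤ r →
      IsPartition B → IsCurve m ψ →
        (a - 675 * (b - a)) * degree logCanonical B m ψ ≤ degree c B m ψ ∧
        degree c B m ψ ≤ (b + 675 * (b - a)) * degree logCanonical B m ψ) ∧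
    IsDivisor (logCanonical : Finset (Fin n) → ℝ) ∧
    (∀ A B C D : Finset (Fin n), IsFCurve A B C D → fdegree logCanonical A B C D = 1) ∧
    (∀ (r : ℕ) (B : Fin r → Finset (Fin n)) (m : Finset (Fin r) → ℝ) (ψ : Fin r → ℝ), 4 ≤ r →
      IsPartition B → IsCurve m ψ → 0 ≤ degree logCanonical B m ψ ∧
        ((∃ S, m S ≠ 0) → 0 < degree logCanonical B m ψ)) := by
  have hab : a ≤ b := by
    set f0 : Fin n := ⟨0, by omega⟩
    set f1 : Fin n := ⟨1, by omega⟩
    set f2 : Fin n := ⟨2, by omega⟩
    have d01 : f0 ≠ f1 := by simp [f0, f1]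
    have d02 : f0 ≠ f2 := by simp [f0, f2]
    have d12 : f1 ≠ f2 := by simp [f1, f2]
    have h1 := bounds_T hc h {f0} {f1} {f2} (singleton_nonempty _) (singleton_nonempty _)
      (singleton_nonempty _) (disjoint_singleton.2 d01) (disjoint_singleton.2 d02)
      (disjoint_singleton.2 d12) (by
        intro h1
        have h2 := congrArg card h1
        rw [card_univ, Fintype.card_fin] at h2
        have h3 : ({f0} ∪ {f1} ∪ {f2} : Finset (Fin n)).card ≤ 3 :=
          (card_union_le _ _).trans (add_le_add (card_union_le _ _) le_rfl)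
        omega)
    exact h1.1.trans h1.2
  refine ⟨?_, ?_, logCanonical_divisor, fun A B C D hF => logCanonical_fdegree hF, ?_⟩
  · obtain ⟨G, hG1, hG2, hG3⟩ := Pool.Agent.NH37.AF.main (V := Fin n) hab
      (by rw [Fintype.card_fin]; exact hn) hc.1 hc.2 (bounds_T hc h)
    refine ⟨fun S => c S + Pool.Agent.NH37.AF.cut G S, ⟨?_, fun S => ?_⟩, ⟨G, hG1, fun S => rfl⟩,
      hG2, fun S => ?_⟩
    · show c ∅ + Pool.Agent.NH37.AF.cut G ∅ = 0
      rw [Pool.Agent.NH37.AF.cut_empty, hc.1, add_zero]
    · show c Sᶜ + Pool.Agent.NH37.AF.cut G Sᶜ = c S + Pool.Agent.NH37.AF.cut G S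
      rw [Pool.Agent.NH37.AF.cut_compl hG1, hc.2]
    · rw [logCanonical_eq]
      exact hG3 S
  · intro r B m ψ hr hB hC
    rw [logCanonical_eq]
    exact Pool.Agent.NH37.AF.degree_bounds hc hab (bounds_T hc h) hr hB hC
  · intro r B m ψ hr hB hC
    rw [logCanonical_eq, Pool.Agent.NH37.AF.degree_logK hB hC hr]
    constructor
    · exact div_nonneg (sum_nonneg fun S _ => Pool.Agent.NH37.AF.logK_term hC hr S) (by norm_num)
    · rintro ⟨S, hS⟩
      apply div_pos _ (by norm_num)
      refine sum_pos' (fun S _ => Pool.Agent.NH37.AF.logK_term hC hr S) ⟨S, mem_univ _, ?_⟩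
      have h1 : ¬ (S.card ≤ 1 ∨ Sᶜ.card ≤ 1) := fun h1 => hS (m_small hC S h1)
      rw [not_or, not_le, not_le, card_compl, Fintype.card_fin] at h1
      exact mul_pos (Pool.Agent.NH37.AF.logK_pos (by omega) (by omega))
        (lt_of_le_of_ne (hC.1 S) (Ne.symm hS))

end Pool.Agent.Results.MP_23e236_ag.UniversalConstant
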